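import Mathlib

set_option autoImplicit false

namespace Pool.Agent.H.MP_389e9c_co

open Matrix Module

def GN : ℕ := 4254286517930355780581093217221173494232744084035330323135176441493158231686386503687362784826964483782659999220493895611603926035008831021151848646698228532561816756384128424099220516399876433017114870179871085486945749943649283959204490575553365095992623139232955029507798444620481182319882733963664303089892969163611391861239804921816226966464949522073075351795347956457616480660163929317119562510838664848350278028585119452190655795706680522990156408971760117190738461032888781782660652753872581470246645197602066035893826171661282313385538923305244765195016549735388746395569696265758869825373015735980359466118487957431719867734795271696984765356174122707738091225388314124746613279177930325415721293448602123469947475659136295570813153105063890589857308928827404893397208814967966801787567790652249694164646988690049295013453801751564855504453376049055929585872553178318813743173887879816492454758698353828189146447872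

def HN : ℕ := 3010804988308105975761135768150170186946840312502840673742163008578793458002510931675131615857679126145197878275253456604024065168866613211007377815767531392356265414433932395732107006566589884338788949844286132889786491414259635805113017158811367732425454405923650463877648063818902173301614257588110839671818097438843378644496892616657632290734446166770317434796254962565215240898567044826847411032517595479497771389292608634307295368289574571567076595333839422874758303868488736039351443134172948980212864514407768715458707905449412798660043063299223321800938391359294307958261847817158106796643700127395582417287563389848305015847007544095837688167979175392773621242698085140839711360540031638457572706200913166177432255243042450468161339317399015877876878121144575053521543154801687018893856793331514460269373720907170921401476466545871946154810364894684030978183140528510109699857072480761501152972000583397935572582400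

def T : Matrix (Fin 6) (Fin 6) (ZMod 2) := !![0, 0, 0, 1, 0, 0; 0, 0, 0, 0, 1, 0; 0, 0, 0, 0, 0, 1; 1, 0, 0, 1, 0, 0; 0, 1, 0, 0, 1, 0; 0, 0, 1, 0, 0, 1]

def S : Matrix (Fin 6) (Fin 6) (ZMod 2) := !![0, 0, 0, 0, 1, 0; 0, 0, 0, 0, 0, 1; 0, 0, 0, 1, 1, 0; 1, 0, 1, 1, 0, 0; 1, 0, 0, 0, 1, 0; 0, 1, 0, 0, 0, 1]

abbrev V := Fin 6 → ZMod 2

def vec (n : ℕ) : V := fun i => if n.testBit i then 1 else 0

def g (a p : ℕ) : ℕ := (GN >>> (6 * (64 * a + p))) % 64
def h (a p : ℕ) : ℕ := (HN >>> (6 * (64 * a + p))) % 64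
def f (u p r : ℕ) : ℕ := g (u % 8) p ^^^ g (u / 8) r
def X (u t : ℕ) : ℕ := if u % 8 = 0 then t else h (u % 8) (g (u / 8) t)
def Y (u t : ℕ) : ℕ := if u % 8 = 0 then 0 else t

lemma vec_surj : ∀ v : V, ∃ n < 64, vec n = v := by decide +kernel

lemma vec_xor (a b : ℕ) : vec (a ^^^ b) = vec a + vec b := by
  ext i
  simp only [vec, Nat.testBit_xor, Pi.add_apply]
  cases a.testBit i <;> cases b.testBit i <;> decide

lemma vec_zero : ∀ n < 64, (vec n = 0 ↔ n = 0) := by decide +kernel

lemma g_ok : ∀ a < 8, ∀ p < 64,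
    vec a 0 • vec p + vec a 1 • vecMul (vec p) T + vec a 2 • vecMul (vec p) S = vec (g a p) := by
  decide +kernel

lemma split : ∀ u < 64, vec u 0 = vec (u % 8) 0 ∧ vec u 1 = vec (u % 8) 1 ∧
    vec u 2 = vec (u % 8) 2 ∧ vec u 3 = vec (u / 8) 0 ∧ vec u 4 = vec (u / 8) 1 ∧
    vec u 5 = vec (u / 8) 2 := by decide +kernel

lemma hg : ∀ a < 8, a ≠ 0 → ∀ p < 64, h a (g a p) = p ∧ g a (h a p) = p := by decide +kernel

lemma g0 : (∀ p < 64, g 0 p = 0) ∧ ∀ a < 8, g a 0 = 0 ∧ h a 0 = 0 := by decide +kernel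

def Km (u : ℕ) : ℕ := (List.range 64).foldr (fun t z => z ||| 2 ^ (64 * X u t + Y u t)) 0

lemma Km_ok : ∀ u < 64, ∀ t < 64, (Km u).testBit (64 * X u t + Y u t) = true := by
  decide +kernel

def chk : Bool := (List.range 64).all fun u => u == 0 || (List.range 64).all fun w =>
  (w != 0 && Km u &&& Km w == 1) || (List.range 64).all fun t => f w (X u t) (Y u t) == 0

lemma chk_ok : chk = true := by decide +kernel

def row : Fin 6 → (V × V →ₗ[ZMod 2] V) :=
  ![LinearMap.fst _ _ _, T.vecMulLinear ∘ₗ LinearMap.fst _ _ _,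
    S.vecMulLinear ∘ₗ LinearMap.fst _ _ _, LinearMap.snd _ _ _,
    T.vecMulLinear ∘ₗ LinearMap.snd _ _ _, S.vecMulLinear ∘ₗ LinearMap.snd _ _ _]

def L : V × V →ₗ[ZMod 2] (Fin 6 → V) := LinearMap.pi row

def Φ (u : V) : V × V →ₗ[ZMod 2] V := ∑ i, u i • row i

lemma g_lt (a p : ℕ) : g a p < 64 := Nat.mod_lt _ (by norm_num)
lemma h_lt (a p : ℕ) : h a p < 64 := Nat.mod_lt _ (by norm_num)
lemma f_lt (u p r : ℕ) : f u p r < 64 :=
  Nat.xor_lt_two_pow (n := 6) (g_lt _ _) (g_lt _ _)

lemma Φ_vec {u p r : ℕ} (hu : u < 64) (hp : p < 64) (hr : r < 64) :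
    Φ (vec u) (vec p, vec r) = vec (f u p r) := by
  obtain ⟨h0, h1, h2, h3, h4, h5⟩ := split u hu
  rw [f, vec_xor, ← g_ok _ (Nat.mod_lt _ (by norm_num)) p hp, ← g_ok (u / 8) (by omega) r hr,
    ← h0, ← h1, ← h2, ← h3, ← h4, ← h5]
  simp [Φ, row, Fin.sum_univ_six, add_assoc]

lemma mem_iff {u p r : ℕ} (hu : u < 64) (hp : p < 64) (hr : r < 64) :
    (vec p, vec r) ∈ LinearMap.ker (Φ (vec u)) ↔ f u p r = 0 := by
  rw [LinearMap.mem_ker, Φ_vec hu hp hr, vec_zero _ (f_lt _ _ _)]

lemma param {u p r : ℕ} (hu : u < 64) (h0 : u ≠ 0) (hp : p < 64) (hr : r < 64)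
    (e : f u p r = 0) : ∃ t < 64, p = X u t ∧ r = Y u t := by
  rw [f, Nat.xor_eq_zero_iff] at e
  by_cases ha : u % 8 = 0
  · refine ⟨p, hp, by simp [X, ha], ?_⟩
    rw [ha, g0.1 p hp] at e
    have := (hg (u / 8) (by omega) (by omega) r hr).1
    rw [← e, (g0.2 _ (by omega)).2] at this
    simp [Y, ha, this]
  · refine ⟨r, hr, ?_, by simp [Y, ha]⟩
    have := (hg (u % 8) (by omega) ha p hp).1
    simp [X, ha, ← e, this]

lemma dich (u w : V) (hu : u ≠ 0) :
    LinearMap.ker (Φ u) ≤ LinearMap.ker (Φ w) ∨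
      LinearMap.ker (Φ u) ⊓ LinearMap.ker (Φ w) = ⊥ := by
  obtain ⟨u, hu', rfl⟩ := vec_surj u
  obtain ⟨w, hw', rfl⟩ := vec_surj w
  have h0 : u ≠ 0 := fun e => hu ((vec_zero u hu').2 e)
  have c := chk_ok
  simp only [chk, List.all_eq_true, List.mem_range, Bool.or_eq_true, beq_iff_eq, bne_iff_ne,
    Bool.and_eq_true] at c
  rcases (c u hu').resolve_left h0 w hw' with c | c
  · right
    rw [eq_bot_iff]
    rintro ⟨p, r⟩ ⟨e, e'⟩
    obtain ⟨p, hp, rfl⟩ := vec_surj p
    obtain ⟨r, hr, rfl⟩ := vec_surj r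
    obtain ⟨t, ht, e1, e2⟩ := param hu' h0 hp hr ((mem_iff hu' hp hr).1 e)
    obtain ⟨t', ht', e3, e4⟩ := param hw' c.1 hp hr ((mem_iff hw' hp hr).1 e')
    have k1 := Km_ok u hu' t ht
    have k2 := Km_ok w hw' t' ht'
    rw [← e1, ← e2] at k1
    rw [← e3, ← e4] at k2
    have k3 : (Km u &&& Km w).testBit (64 * p + r) = true := by
      rw [Nat.testBit_and, k1, k2]; rfl
    rw [c.2, Nat.testBit_one_eq_true_iff_self_eq_zero] at k3
    have a1 : p = 0 := by omega
    have a2 : r = 0 := by omega
    rw [a1, a2, (vec_zero 0 (by norm_num)).2 rfl]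
    rfl
  · left
    rintro ⟨p, r⟩ e
    obtain ⟨p, hp, rfl⟩ := vec_surj p
    obtain ⟨r, hr, rfl⟩ := vec_surj r
    obtain ⟨t, ht, e1, e2⟩ := param hu' h0 hp hr ((mem_iff hu' hp hr).1 e)
    rw [mem_iff hw' hp hr, e1, e2]
    exact c t ht

lemma dimVV : finrank (ZMod 2) (V × V) = 12 := by simp [Module.finrank_prod]

lemma dim_ker (u : V) (hu : u ≠ 0) : finrank (ZMod 2) (LinearMap.ker (Φ u)) = 6 := by
  obtain ⟨u, hu', rfl⟩ := vec_surj u
  have h0 : u ≠ 0 := fun e => hu ((vec_zero u hu').2 e)
  have hs : LinearMap.range (Φ (vec u)) = ⊤ := by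
    rw [eq_top_iff]
    rintro y -
    obtain ⟨y, hy, rfl⟩ := vec_surj y
    by_cases ha : u % 8 = 0
    · refine ⟨(vec 0, vec (h (u / 8) y)), ?_⟩
      rw [Φ_vec hu' (by norm_num) (h_lt _ _), f, (g0.2 _ (by omega)).1,
        (hg (u / 8) (by omega) (by omega) y hy).2, Nat.zero_xor]
    · refine ⟨(vec (h (u % 8) y), vec 0), ?_⟩
      rw [Φ_vec hu' (h_lt _ _) (by norm_num), f, (g0.2 (u / 8) (by omega)).1,
        (hg (u % 8) (by omega) ha y hy).2, Nat.xor_zero]
  have := LinearMap.finrank_range_add_finrank_ker (Φ (vec u))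
  rw [hs, dimVV, finrank_top] at this
  simp at this
  omega

lemma L_inj : Function.Injective L := by
  rw [← LinearMap.ker_eq_bot, eq_bot_iff]
  rintro ⟨p, r⟩ e
  have e0 := congrFun e 0
  have e3 := congrFun e 3
  simp [L, row] at e0 e3
  simp [e0, e3]

def col (j : Fin 6) : (Fin 6 → V) →ₗ[ZMod 2] V :=
  LinearMap.pi fun i => LinearMap.comp (LinearMap.proj j : V →ₗ[ZMod 2] ZMod 2)
    (LinearMap.proj i : (Fin 6 → V) →ₗ[ZMod 2] V)

def N (U : Set V) : Submodule (ZMod 2) (V × V) := ⨅ u ∈ U, LinearMap.ker (Φ u)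

lemma dimC (W : Submodule (ZMod 2) V) (U : Set V)
    (hW : ∀ x, x ∈ W ↔ ∀ u ∈ U, ∑ i, u i * x i = 0) :
    finrank (ZMod 2) ↥(LinearMap.range L ⊓ ⨅ j, W.comap (col j)) = finrank (ZMod 2) (N U) := by
  have : LinearMap.range L ⊓ ⨅ j, W.comap (col j) = (N U).map L := by
    have key : ∀ c, (∀ j, col j (L c) ∈ W) ↔ c ∈ N U := by
      intro c
      simp only [hW, N, Submodule.mem_iInf, LinearMap.mem_ker]
      constructor
      · intro H u hu
        ext j
        simpa [Φ, col, L] using H j u hu
      · intro H j u hu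
        simpa [Φ, col, L] using congrFun (H u hu) j
    ext M
    simp only [Submodule.mem_inf, LinearMap.mem_range, Submodule.mem_iInf, Submodule.mem_comap,
      Submodule.mem_map]
    constructor
    · rintro ⟨⟨c, rfl⟩, H⟩
      exact ⟨c, (key c).1 H, rfl⟩
    · rintro ⟨c, H, rfl⟩
      exact ⟨⟨c, rfl⟩, (key c).2 H⟩
  rw [this]
  exact (LinearEquiv.finrank_eq (Submodule.equivMapOfInjective L L_inj (N U))).symm

lemma dvdN (U : Set V) : 6 ∣ finrank (ZMod 2) (N U) := by
  by_cases h0 : ∀ u ∈ U, u = 0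
  · have : N U = ⊤ := by
      rw [eq_top_iff]
      intro c _
      simp only [N, Submodule.mem_iInf, LinearMap.mem_ker]
      intro u hu
      simp [h0 u hu, Φ]
    rw [this, finrank_top, dimVV]; norm_num
  · push Not at h0
    obtain ⟨u, hu, h0⟩ := h0
    by_cases h1 : ∀ w ∈ U, LinearMap.ker (Φ u) ≤ LinearMap.ker (Φ w)
    · have : N U = LinearMap.ker (Φ u) :=
        le_antisymm (iInf₂_le u hu) (le_iInf₂ h1)
      rw [this, dim_ker u h0]
    · push Not at h1
      obtain ⟨w, hw, h1⟩ := h1
      have : N U = ⊥ := by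
        rw [eq_bot_iff, ← (dich u w h0).resolve_left h1]
        exact le_inf (iInf₂_le u hu) (iInf₂_le w hw)
      rw [this]; simp

lemma exU (W : Submodule (ZMod 2) V) :
    ∃ U : Set V, ∀ x, x ∈ W ↔ ∀ u ∈ U, ∑ i, u i * x i = 0 := by
  refine ⟨{u | ∀ x ∈ W, ∑ i, u i * x i = 0}, fun x => ⟨fun hx u hu => hu x hx, fun H => ?_⟩⟩
  rw [← Subspace.forall_mem_dualAnnihilator_apply_eq_zero_iff]
  intro φ hφ
  have e : ∀ y : V, φ y = ∑ i, φ (Pi.single i 1) * y i := by
    intro y
    rw [LinearMap.pi_apply_eq_sum_univ]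
    refine Finset.sum_congr rfl fun i _ => ?_
    rw [smul_eq_mul, mul_comm]
    congr 2
    ext j
    simp [Pi.single_apply, eq_comm]
  rw [e]
  refine H _ fun y hy => ?_
  rw [← e]
  exact (Submodule.mem_dualAnnihilator φ).1 hφ y hy

lemma dimL : finrank (ZMod 2) (LinearMap.range L) = 12 := by
  rw [LinearMap.finrank_range_of_inj L_inj, dimVV]

lemma N_pair (u w : V) : N (Submodule.span (ZMod 2) {u, w} : Submodule (ZMod 2) V) =
    LinearMap.ker (Φ u) ⊓ LinearMap.ker (Φ w) := by
  apply le_antisymm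
  · exact le_inf (iInf₂_le u (Submodule.subset_span (by simp)))
      (iInf₂_le w (Submodule.subset_span (by simp)))
  · refine le_iInf₂ fun v hv => ?_
    obtain ⟨a, b, rfl⟩ := Submodule.mem_span_pair.1 hv
    rintro c ⟨h1, h2⟩
    have h1 : Φ u c = 0 := h1
    have h2 : Φ w c = 0 := h2
    have : Φ (a • u + b • w) c = a • Φ u c + b • Φ w c := by
      simp [Φ, add_smul, Finset.sum_add_distrib, Finset.smul_sum, mul_smul]
    rw [LinearMap.mem_ker, this, h1, h2]; simp

lemma par {u w : ℕ} (hu : u < 64) (h0 : u ≠ 0) (hw : w < 64)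
    (c : ∀ t < 64, f w (X u t) (Y u t) = 0) :
    finrank (ZMod 2) (N (Submodule.span (ZMod 2) {vec u, vec w} : Submodule (ZMod 2) V)) = 6 := by
  have : LinearMap.ker (Φ (vec u)) ≤ LinearMap.ker (Φ (vec w)) := by
    rintro ⟨p, r⟩ e
    obtain ⟨p, hp, rfl⟩ := vec_surj p
    obtain ⟨r, hr, rfl⟩ := vec_surj r
    obtain ⟨t, ht, e1, e2⟩ := param hu h0 hp hr ((mem_iff hu hp hr).1 e)
    rw [mem_iff hw hp hr, e1, e2]
    exact c t ht
  rw [N_pair, inf_eq_left.2 this, dim_ker _ fun e => h0 ((vec_zero u hu).1 e)]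

lemma ind : finrank (ZMod 2)
    (N (Submodule.span (ZMod 2) {vec 1, vec 8} : Submodule (ZMod 2) V)) = 0 := by
  rw [N_pair]
  rcases dich (vec 1) (vec 8) (by decide) with c | c
  · have := c ((mem_iff (u := 1) (p := 0) (r := 1) (by norm_num) (by norm_num)
      (by norm_num)).2 (by decide +kernel))
    rw [mem_iff (by norm_num) (by norm_num) (by norm_num)] at this
    exact absurd this (by decide +kernel)
  · rw [c]; simp

lemma span_pair {K : Type} [Field K] [Algebra (ZMod 2) K] {k : ℕ}
    (G : Matrix (Fin k) (Fin 6) K) (u w : V) :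
    Submodule.span K ((fun v : V => G.mulVec fun i => algebraMap (ZMod 2) K (v i)) ''
      (Submodule.span (ZMod 2) {u, w} : Submodule (ZMod 2) V)) =
    Submodule.span K {G.mulVec fun i => algebraMap (ZMod 2) K (u i),
      G.mulVec fun i => algebraMap (ZMod 2) K (w i)} := by
  apply le_antisymm
  · rw [Submodule.span_le]
    rintro _ ⟨v, hv, rfl⟩
    obtain ⟨a, b, rfl⟩ := Submodule.mem_span_pair.1 hv
    refine Submodule.mem_span_pair.2 ⟨algebraMap _ K a, algebraMap _ K b, ?_⟩
    rw [← Matrix.mulVec_smul, ← Matrix.mulVec_smul, ← Matrix.mulVec_add]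
    congr 1
    ext i
    simp [Algebra.smul_def]
  · apply Submodule.span_mono
    rintro _ (rfl | rfl)
    · exact ⟨u, Submodule.subset_span (by simp), rfl⟩
    · exact ⟨w, Submodule.subset_span (by simp), rfl⟩

lemma rk1 {K E : Type} [Field K] [AddCommGroup E] [Module K E] {x y : E} (hx : x ≠ 0)
    (e : finrank K (Submodule.span K {x, y} : Submodule K E) = 1) : ∃ c : K, y = c • x := by
  have hx' : x ∈ (Submodule.span K {x, y} : Submodule K E) := Submodule.subset_span (by simp)
  have hy' : y ∈ (Submodule.span K {x, y} : Submodule K E) := Submodule.subset_span (by simp)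
  obtain ⟨c, hc⟩ := (finrank_eq_one_iff_of_nonzero' (⟨x, hx'⟩ : Submodule.span K {x, y})
    (fun e => hx (congrArg Subtype.val e))).1 e ⟨y, hy'⟩
  exact ⟨c, (congrArg Subtype.val hc).symm⟩

lemma rk0 {K E : Type} [Field K] [AddCommGroup E] [Module K E] {x : E}
    (e : finrank K (Submodule.span K {x, x} : Submodule K E) = 1) : x ≠ 0 := by
  rintro rfl
  rw [Set.pair_eq_singleton, Submodule.span_zero_singleton, finrank_bot] at e
  exact zero_ne_one e

lemma rk2 {K E : Type} [Field K] [AddCommGroup E] [Module K E] {x y : E}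
    (e : finrank K (Submodule.span K {x, y} : Submodule K E) = 2) :
    LinearIndependent K ![x, y] := by
  rw [linearIndependent_iff_card_eq_finrank_span]
  have : Set.range ![x, y] = {x, y} := by
    simp [Matrix.range_cons, Matrix.range_empty, Set.pair_comm]
  rw [Set.finrank, this, e]
  simp

lemma final {K E : Type} [Field K] [AddCommGroup E] [Module K E] (h2 : (2 : K) = 0)
    (g0 g1 g2 g3 g4 g5 : E) (x y x' y' c d c' d' : K) (hi : LinearIndependent K ![g0, g3])
    (e1 : g1 = x • g0) (e2 : g2 = y • g0) (e4 : g4 = x' • g3) (e5 : g5 = y' • g3)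
    (a1 : g1 + g4 = c • (g0 + g3)) (a2 : g2 + g5 = d • (g0 + g3))
    (b1 : g1 + g3 + g4 = c' • (g0 + g4)) (b2 : g2 + g3 + g5 = d' • (g0 + g5))
    (n1 : g1 + g2 ≠ 0) (n2 : g0 + g1 + g2 ≠ 0) : False := by
  subst e1 e2 e4 e5
  rw [LinearIndependent.pair_iff] at hi
  obtain ⟨p1, p2⟩ := hi (x - c) (x' - c) (by linear_combination (norm := module) a1)
  obtain ⟨p3, p4⟩ := hi (y - d) (y' - d) (by linear_combination (norm := module) a2)
  obtain ⟨p5, p6⟩ := hi (x - c') (1 + x' - c' * x') (by linear_combination (norm := module) b1)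
  obtain ⟨p7, p8⟩ := hi (y - d') (1 + y' - d' * y') (by linear_combination (norm := module) b2)
  have hx : x' = x := by linear_combination p2 - p1
  have hy : y' = y := by linear_combination p4 - p3
  have hc : c' = x := by linear_combination -p5
  have hd : d' = y := by linear_combination -p7
  subst hx hy hc hd
  have : (c' + d') * (1 + c' + d') = 0 := by
    linear_combination -p6 - p8 + (1 + c' + d' + c' * d') * h2
  rcases mul_eq_zero.1 this with z | z
  · exact n1 (by rw [← add_smul, z, zero_smul])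
  · exact n2 (by
      have : g0 + c' • g0 + d' • g0 = (1 + c' + d') • g0 := by module
      rw [this, z, zero_smul])

end Pool.Agent.H.MP_389e9c_co
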